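import Mathlib

set_option autoImplicit false

namespace Pool.Agent.Results.MP_9aa340_pr.Percolates

open MeasureTheory ProbabilityTheory Filter Topology
open scoped ENNReal NNReal

section Defs

variable {Γ : Type} [Group Γ]

/-- The law of `Γ_μ(l)`: independently for each unordered pair `{g, h}`, the number of parallel edges
is Poisson with mean `l * μ (g⁻¹ * h)` (loops, on the diagonal, are ignored by `graph`). -/
noncomputable def law (μ : PMF Γ) (hμ : ∀ g, μ g⁻¹ = μ g) (l : ℝ≥0) : Measure (Sym2 Γ → ℕ) :=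
  Measure.infinitePi fun e => poissonMeasure
    (l * Sym2.lift ⟨fun g h => (μ (g⁻¹ * h)).toNNReal, fun g h => by simp only; rw [← hμ]; simp⟩ e)

/-- The simple graph joining distinct `g, h` when at least one edge joins them. -/
def graph (ω : Sym2 Γ → ℕ) : SimpleGraph Γ := SimpleGraph.fromRel fun g h => ω s(g, h) ≠ 0

/-- The event that some connected component is infinite. -/
def Perc (Γ : Type) : Set (Sym2 Γ → ℕ) := {ω | ∃ g, {h | (graph ω).Reachable g h}.Infinite}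

/-- The critical parameter `λ_c(μ) ∈ [0, ∞]`. -/
noncomputable def lambdaC (μ : PMF Γ) (hμ : ∀ g, μ g⁻¹ = μ g) : ℝ≥0∞ :=
  ⨆ (l : ℝ≥0) (_ : 0 < l) (_ : law μ hμ l (Perc Γ) = 0), (l : ℝ≥0∞)

end Defs

section Core

variable {Γ : Type} [DecidableEq Γ] {S T : Finset (Sym2 Γ)} {A B : Set (Sym2 Γ → ℕ)}

def Dep (S : Finset (Sym2 Γ)) (A : Set (Sym2 Γ → ℕ)) : Prop :=
  ∀ ω ω', (∀ e ∈ S, ω e = ω' e) → ω ∈ A → ω' ∈ A

omit [DecidableEq Γ] in
lemma Dep.eq (h : Dep S A) : A = S.restrict ⁻¹' (S.restrict '' A) :=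
  Set.ext fun ω => ⟨fun hω => ⟨ω, hω, rfl⟩,
    fun ⟨ω', h1, h2⟩ => h ω' ω (fun e he => congrFun h2 ⟨e, he⟩) h1⟩

omit [DecidableEq Γ] in
lemma Dep.meas (h : Dep S A) : MeasurableSet A := by
  rw [h.eq]; exact Finset.measurable_restrict S MeasurableSet.of_discrete

omit [DecidableEq Γ] in
lemma Dep.mono (h : Dep S A) (hS : S ⊆ T) : Dep T A := fun ω ω' h1 => h ω ω' fun e he => h1 e (hS he)

omit [DecidableEq Γ] in
lemma Dep.compl (h : Dep S A) : Dep S Aᶜ := fun ω ω' h1 h2 h3 => h2 (h ω' ω (fun e he => (h1 e he).symm) h3)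

omit [DecidableEq Γ] in
lemma Dep.inter (h : Dep S A) (h' : Dep S B) : Dep S (A ∩ B) :=
  fun ω ω' h1 h2 => ⟨h ω ω' h1 h2.1, h' ω ω' h1 h2.2⟩

variable (ν : Sym2 Γ → Measure ℕ) [∀ e, IsProbabilityMeasure (ν e)]

omit [DecidableEq Γ] in
lemma Dep.mul (h : Dep S A) (h' : Dep T B) (hd : Disjoint S T) :
    (Measure.infinitePi ν).real (A ∩ B) = (Measure.infinitePi ν).real A * (Measure.infinitePi ν).real B := by
  have h1 : iIndepFun (fun e (ω : Sym2 Γ → ℕ) => ω e) (Measure.infinitePi ν) :=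
    iIndepFun_infinitePi (X := fun _ ω => ω) (by fun_prop)
  have h2 := (h1.indepFun_finset S T hd fun e => measurable_pi_apply e).measure_inter_preimage_eq_mul
    (S.restrict '' A) (T.restrict '' B) MeasurableSet.of_discrete MeasurableSet.of_discrete
  rw [h.eq, h'.eq, Measure.real, Measure.real, Measure.real, ← ENNReal.toReal_mul]
  exact congrArg _ h2

def R (D : Finset Γ) (ω : Sym2 Γ → ℕ) (u v : Γ) : Prop := u ∈ D ∧ v ∈ D ∧ ω s(u, v) ≠ 0

open Classical in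
noncomputable def K (D : Finset Γ) (x : Γ) (ω : Sym2 Γ → ℕ) : Finset Γ :=
  D.filter fun y => Relation.ReflTransGen (R D ω) x y

lemma mem_K {D : Finset Γ} {x y : Γ} {ω : Sym2 Γ → ℕ} :
    y ∈ K D x ω ↔ y ∈ D ∧ Relation.ReflTransGen (R D ω) x y := by simp [K]

lemma K_sub (D : Finset Γ) (x : Γ) (ω : Sym2 Γ → ℕ) : K D x ω ⊆ D := fun _ h => (mem_K.1 h).1

lemma K_dep (D : Finset Γ) (x : Γ) (Q : Finset Γ → Prop) : Dep D.sym2 {ω | Q (K D x ω)} := by
  intro ω ω' h h1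
  have : R D ω' = R D ω := by
    funext u v
    exact propext (and_congr_right fun a => and_congr_right fun b => by
      rw [h _ (Finset.mk_mem_sym2_iff.2 ⟨a, b⟩)])
  have h2 : K D x ω' = K D x ω := by unfold K; rw [this]
  rwa [Set.mem_setOf_eq, h2]

def Ev (D : Finset Γ) (x : Γ) (m : ℕ) : Set (Sym2 Γ → ℕ) := {ω | m ≤ (K D x ω).card}

lemma attach {D' : Finset Γ} {t : Γ → Γ} {E : Γ → Set (Sym2 Γ → ℕ)} {θ : ℝ} (C : Finset Γ)
    (h1 : ∀ c ∈ C, c ∉ D') (h2 : ∀ c ∈ C, Dep D'.sym2 (E c))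
    (h3 : ∀ c ∈ C, θ ≤ (Measure.infinitePi ν).real (E c)) :
    θ * (1 - (Measure.infinitePi ν).real {ω | ∀ c ∈ C, ω s(c, t c) = 0}) ≤
      (Measure.infinitePi ν).real (⋃ c ∈ C, {ω | ω s(c, t c) ≠ 0} ∩ E c) := by
  induction C using Finset.induction_on with
  | empty => simp
  | insert a C ha ih =>
    have i1 := ih (fun c hc => h1 c (by simp [hc])) (fun c hc => h2 c (by simp [hc]))
      fun c hc => h3 c (by simp [hc])
    have d0 : Dep ((insert a C).image fun c => s(c, t c)) {ω | ∀ c ∈ C, ω s(c, t c) = 0} :=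
      fun ω ω' h hω c hc => by rw [← h _ (Finset.mem_image_of_mem _ (by simp [hc]))]; exact hω c hc
    have d1 : Dep ((insert a C).image fun c => s(c, t c)) {ω | ω s(a, t a) ≠ 0} :=
      fun ω ω' h hω => by
        rw [Set.mem_setOf_eq, ← h _ (Finset.mem_image_of_mem _ (by simp))]; exact hω
    have i2 := (d0.inter d1).mul ν (h2 a (by simp)) (Finset.disjoint_left.2 fun e he he' => by
      obtain ⟨c, hc, rfl⟩ := Finset.mem_image.1 he
      exact h1 c hc (Finset.mk_mem_sym2_iff.1 he').1)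
    have i3 := measureReal_inter_add_diff (μ := Measure.infinitePi ν)
      (s := {ω | ∀ c ∈ C, ω s(c, t c) = 0}) d1.meas
    have e1 : {ω : Sym2 Γ → ℕ | ∀ c ∈ C, ω s(c, t c) = 0} \ {ω | ω s(a, t a) ≠ 0} =
        {ω | ∀ c ∈ insert a C, ω s(c, t c) = 0} := by
      ext ω; simp [and_comm]
    rw [e1] at i3
    have i4 := measureReal_union (μ := Measure.infinitePi ν)
      (s₁ := ⋃ c ∈ C, {ω | ω s(c, t c) ≠ 0} ∩ E c)
      (s₂ := {ω | ∀ c ∈ C, ω s(c, t c) = 0} ∩ {ω | ω s(a, t a) ≠ 0} ∩ E a)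
      (Set.disjoint_left.2 fun ω hω hω' => by
        obtain ⟨c, hc, h⟩ := Set.mem_iUnion₂.1 hω
        exact h.1 (hω'.1.1 c hc)) ((d0.inter d1).meas.inter (h2 a (by simp)).meas)
      (measure_ne_top _ _) (measure_ne_top _ _)
    refine le_trans ?_ (i4.symm.le.trans (measureReal_mono ?_ (measure_ne_top _ _)))
    · have i5 := mul_le_mul_of_nonneg_left (h3 a (by simp)) (measureReal_nonneg (μ := Measure.infinitePi ν)
        (s := {ω | ∀ c ∈ C, ω s(c, t c) = 0} ∩ {ω | ω s(a, t a) ≠ 0}))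
      rw [← i3] at i1
      rw [i2]; linarith
    · rw [Finset.set_biUnion_insert]
      rintro ω (h | h)
      exacts [Or.inr h, Or.inl ⟨h.1.2, h.2⟩]

lemma many {S0 : Finset (Sym2 Γ)} {G : Set (Sym2 Γ → ℕ)} (hG : Dep S0 G) {S : Γ → Finset (Sym2 Γ)}
    {F : Γ → Set (Sym2 Γ → ℕ)} {q : ℝ} (P : Finset Γ) (h1 : ∀ p ∈ P, Dep (S p) (F p))
    (h2 : ∀ p ∈ P, Disjoint S0 (S p)) (h3 : ∀ p ∈ P, ∀ p' ∈ P, p ≠ p' → Disjoint (S p) (S p'))
    (h4 : ∀ p ∈ P, (Measure.infinitePi ν).real (F p) ≤ q) :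
    (Measure.infinitePi ν).real (G ∩ {ω | ∀ p ∈ P, ω ∈ F p}) ≤ (Measure.infinitePi ν).real G * q ^ P.card := by
  induction P using Finset.induction_on with
  | empty => simp
  | insert a P ha ih =>
    have i1 := ih (fun c hc => h1 c (by simp [hc])) (fun c hc => h2 c (by simp [hc]))
      (fun c hc c' hc' => h3 c (by simp [hc]) c' (by simp [hc'])) fun c hc => h4 c (by simp [hc])
    have d0 : Dep (S0 ∪ P.biUnion S) (G ∩ {ω | ∀ p ∈ P, ω ∈ F p}) :=
      (hG.mono Finset.subset_union_left).inter fun ω ω' h hω p hp => h1 p (by simp [hp]) ω ω'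
        (fun e he => h e (Finset.mem_union_right _ (Finset.mem_biUnion.2 ⟨p, hp, he⟩))) (hω p hp)
    have i2 := d0.mul ν (h1 a (by simp)) (by
      rw [Finset.disjoint_union_left, Finset.disjoint_biUnion_left]
      exact ⟨h2 a (by simp), fun p hp => h3 p (by simp [hp]) a (by simp) (by rintro rfl; exact ha hp)⟩)
    have e1 : G ∩ {ω | ∀ p ∈ insert a P, ω ∈ F p} = G ∩ {ω | ∀ p ∈ P, ω ∈ F p} ∩ F a := by
      ext ω; simp only [Finset.forall_mem_insert, Set.mem_inter_iff, Set.mem_setOf_eq]; tauto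
    rw [e1, i2, Finset.card_insert_of_notMem ha, pow_succ, ← mul_assoc]
    exact mul_le_mul i1 (h4 a (by simp)) measureReal_nonneg (measureReal_nonneg.trans i1)

lemma double {D D' : Finset Γ} {x : Γ} {P : Finset Γ} {Q : Γ → Finset Γ} {t : Γ → Γ → Γ}
    {L : Γ → Γ → Finset Γ} {m : ℕ} {θ r : ℝ} (hθ : 0 ≤ θ) (hr : r ≤ 1) (h0 : D ⊆ D')
    (h1 : ∀ p ∈ P, Q p ⊆ D') (h2 : ∀ p ∈ P, Disjoint D (Q p))
    (h3 : ∀ p ∈ P, ∀ p' ∈ P, p ≠ p' → Disjoint (Q p) (Q p'))
    (h4 : ∀ p ∈ P, ∀ c ∈ D, t p c ∈ L p c ∧ L p c ⊆ Q p ∧ (ν s(c, t p c)).real {0} ≤ r ∧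
      θ ≤ (Measure.infinitePi ν).real (Ev (L p c) (t p c) m)) (hq : 0 ≤ 1 - θ * (1 - r ^ m)) :
    (Measure.infinitePi ν).real (Ev D x m) - (1 - θ * (1 - r ^ m)) ^ P.card ≤
      (Measure.infinitePi ν).real (Ev D' x (2 * m)) := by
  set F : Finset Γ → Γ → Set (Sym2 Γ → ℕ) := fun C p =>
    (⋃ c ∈ C, {ω | ω s(c, t p c) ≠ 0} ∩ Ev (L p c) (t p c) m)ᶜ with hF
  set I := D.powerset.filter fun C => m ≤ C.card with hI
  have sub : Ev D x m ⊆ Ev D' x (2 * m) ∪ ⋃ C ∈ I, {ω | K D x ω = C} ∩ {ω | ∀ p ∈ P, ω ∈ F C p} := by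
    intro ω hω
    by_cases h : ∀ p ∈ P, ω ∈ F (K D x ω) p
    · exact Or.inr (Set.mem_iUnion₂.2 ⟨_, Finset.mem_filter.2
        ⟨Finset.mem_powerset.2 (K_sub _ _ _), hω⟩, rfl, h⟩)
    left
    simp only [hF, Set.mem_compl_iff, not_forall, not_not, Set.mem_iUnion] at h
    obtain ⟨p, hp, c, hc, a1, a2⟩ := h
    have hc' := mem_K.1 hc
    obtain ⟨b1, b2, -⟩ := h4 p hp c hc'.1
    have mono : ∀ {D0 : Finset Γ}, D0 ⊆ D' → ∀ {u v}, Relation.ReflTransGen (R D0 ω) u v →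
        Relation.ReflTransGen (R D' ω) u v := fun {D0} h u v =>
      Relation.ReflTransGen.mono (r := R D0 ω) (p := R D' ω) (fun _ _ h' => ⟨h h'.1, h h'.2.1, h'.2.2⟩) u v
    have b3 : K D x ω ∪ K (L p c) (t p c) ω ⊆ K D' x ω := by
      intro y hy
      rcases Finset.mem_union.1 hy with hy | hy <;> rw [mem_K] at hy ⊢
      · exact ⟨h0 hy.1, mono h0 hy.2⟩
      · exact ⟨h1 p hp (b2 hy.1), ((mono h0 hc'.2).tail ⟨h0 hc'.1, h1 p hp (b2 b1), a1⟩).trans
          (mono (b2.trans (h1 p hp)) hy.2)⟩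
    have b4 := Finset.card_le_card b3
    rw [Finset.card_union_of_disjoint ((h2 p hp).mono (K_sub _ _ _)
      ((K_sub _ _ _).trans b2))] at b4
    simp only [Ev, Set.mem_setOf_eq] at hω a2 ⊢
    omega
  have key : ∀ C ∈ I, (Measure.infinitePi ν).real ({ω | K D x ω = C} ∩ {ω | ∀ p ∈ P, ω ∈ F C p}) ≤
      (Measure.infinitePi ν).real {ω | K D x ω = C} * (1 - θ * (1 - r ^ m)) ^ P.card := by
    intro C hC
    obtain ⟨c1, c2⟩ := Finset.mem_filter.1 hC
    rw [Finset.mem_powerset] at c1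
    have nQ : ∀ p ∈ P, ∀ c ∈ C, c ∉ Q p := fun p hp c hc => Finset.disjoint_left.1 (h2 p hp) (c1 hc)
    have dE : ∀ p ∈ P, ∀ c ∈ C, Dep (Q p).sym2 (Ev (L p c) (t p c) m) := fun p hp c hc =>
      (K_dep _ _ fun Z => m ≤ Z.card).mono (Finset.sym2_mono (h4 p hp c (c1 hc)).2.1)
    have dF : ∀ p ∈ P, Dep ((D ∪ Q p).sym2 \ D.sym2) (F C p)ᶜ := by
      intro p hp ω ω' h hω
      rw [hF, compl_compl] at hω ⊢
      obtain ⟨c, hc, a1, a2⟩ := Set.mem_iUnion₂.1 hω
      have a3 := (h4 p hp c (c1 hc)).2.1 (h4 p hp c (c1 hc)).1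
      refine Set.mem_iUnion₂.2 ⟨c, hc, ?_, dE p hp c hc ω ω' (fun e he => h e ?_) a2⟩
      · rw [Set.mem_setOf_eq, ← h _ ?_]
        · exact a1
        · simp [c1 hc, a3, Finset.disjoint_right.1 (h2 p hp) a3]
      · induction e using Sym2.ind with
        | h u v =>
          rw [Finset.mk_mem_sym2_iff] at he
          simp [he.1, he.2, Finset.disjoint_right.1 (h2 p hp) he.1]
    refine many ν (K_dep D x (· = C)) (S := fun p => (D ∪ Q p).sym2 \ D.sym2) P
      (fun p hp => by simpa using (dF p hp).compl) (fun p _ => Finset.disjoint_sdiff)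
      (fun p hp p' hp' hne => Finset.disjoint_left.2 fun e he he' => ?_) fun p hp => ?_
    · induction e using Sym2.ind with
      | h u v =>
        have := Finset.disjoint_left.1 (h3 p hp p' hp' hne)
        simp only [Finset.mem_sdiff, Finset.mk_mem_sym2_iff, Finset.mem_union] at he he'
        have a1 := @this u
        have a2 := @this v
        tauto
    · have a1 := attach ν (t := t p) C (nQ p hp) (dE p hp) fun c hc => (h4 p hp c (c1 hc)).2.2.2
      have a2 : (Measure.infinitePi ν).real {ω | ∀ c ∈ C, ω s(c, t p c) = 0} ≤ r ^ m := by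
        have b1 : {ω : Sym2 Γ → ℕ | ∀ c ∈ C, ω s(c, t p c) = 0} =
            Set.pi (C.image fun c => s(c, t p c)) fun _ => {0} := by
          ext ω; simp
        rw [b1, Measure.real, Measure.infinitePi_pi _ fun _ _ => measurableSet_singleton _,
          ENNReal.toReal_prod, Finset.prod_image fun c hc c' hc' h => ?_]
        · refine (Finset.prod_le_prod (fun _ _ => ENNReal.toReal_nonneg)
            fun c hc => (h4 p hp c (c1 hc)).2.2.1).trans ?_
          rw [Finset.prod_const]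
          rcases C.eq_empty_or_nonempty with rfl | ⟨c, hc⟩
          · simp at c2; simp [c2]
          · exact pow_le_pow_of_le_one (measureReal_nonneg.trans (h4 p hp c (c1 hc)).2.2.1) hr c2
        · rcases Sym2.eq_iff.1 h with h | h
          · exact h.1
          · exact absurd ((h4 p hp c' (c1 hc')).2.1 (h4 p hp c' (c1 hc')).1) (h.1 ▸ nQ p hp c hc)
      have a3 := (dF p hp).meas
      rw [hF, compl_compl] at a3
      rw [hF, probReal_compl_eq_one_sub a3]
      nlinarith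
  have tot : ∑ C ∈ I, (Measure.infinitePi ν).real {ω | K D x ω = C} ≤ 1 :=
    (sum_measureReal_preimage_singleton (μ := Measure.infinitePi ν) I (f := K D x)
      fun C _ => (K_dep D x (· = C)).meas).le.trans measureReal_le_one
  have := (measureReal_mono (μ := Measure.infinitePi ν) sub (measure_ne_top _ _)).trans ((measureReal_union_le _ _).trans
    (add_le_add_right ((measureReal_biUnion_finset_le _ _).trans (Finset.sum_le_sum key)) _))
  rw [← Finset.sum_mul] at this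
  linarith [mul_le_of_le_one_left (pow_nonneg hq P.card) tot]

end Core

variable {Γ : Type} [DecidableEq Γ] [Group Γ]

def Q (B : Finset Γ) (p : Γ) : Finset Γ := Finset.image₂ (fun a b => a * p * b) B B

lemma exP [Infinite Γ] (B : Finset Γ) (k : ℕ) : ∃ P : Finset Γ, P.card = k ∧
    (∀ p ∈ P, Disjoint B (Q B p)) ∧ ∀ p ∈ P, ∀ p' ∈ P, p ≠ p' → Disjoint (Q B p) (Q B p') := by
  induction k with
  | zero => exact ⟨∅, by simp⟩
  | succ k ih =>
    obtain ⟨P, h1, h2, h3⟩ := ih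
    obtain ⟨p, hp⟩ := Infinite.exists_notMem_finset (P ∪ (B ∪ P.biUnion (Q B)).biUnion fun z =>
      Finset.image₂ (fun a b => a⁻¹ * z * b⁻¹) B B)
    rw [Finset.mem_union, not_or] at hp
    have key : Disjoint (B ∪ P.biUnion (Q B)) (Q B p) := Finset.disjoint_left.2 fun z hz hz' => by
      obtain ⟨a, ha, b, hb, rfl⟩ := Finset.mem_image₂.1 hz'
      exact hp.2 (Finset.mem_biUnion.2 ⟨_, hz, Finset.mem_image₂.2 ⟨a, ha, b, hb, by group⟩⟩)
    rw [Finset.disjoint_union_left, Finset.disjoint_biUnion_left] at key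
    refine ⟨insert p P, by rw [Finset.card_insert_of_notMem hp.1, h1], ?_, ?_⟩
    · simpa using ⟨key.1, h2⟩
    · intro a ha b hb hab
      rcases Finset.mem_insert.1 ha with rfl | ha' <;> rcases Finset.mem_insert.1 hb with rfl | hb'
      exacts [absurd rfl hab, (key.2 b hb').symm, key.2 a ha', h3 a ha' b hb' hab]

def Inv (n : ℕ) (s : Finset Γ × (Γ → ℝ)) : Prop :=
  1 ∈ s.1 ∧ ∀ (ν : Sym2 Γ → Measure ℕ) [∀ e, IsProbabilityMeasure (ν e)],
    (∀ g h, (ν s(g, h)).real {0} ≤ Real.exp (-s.2 (g⁻¹ * h))) → ∀ x,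
      1 / 2 + 1 / 2 * (3 / 4) ^ n ≤ (Measure.infinitePi ν).real (Ev (s.1.image (x * ·)) x (2 ^ n))

lemma num (n : ℕ) : 0 ≤ 1 - 1 / 2 * (1 - Real.exp (-(1 / 2 * (1 / 3) ^ n)) ^ 2 ^ n) ∧
    (1 - 1 / 2 * (1 - Real.exp (-(1 / 2 * (1 / 3) ^ n)) ^ 2 ^ n)) ^ (64 * 2 ^ n) ≤ 1 / 8 * (3 / 4 : ℝ) ^ n := by
  rw [← Real.exp_nat_mul]
  set y : ℝ := 1 / 2 * (2 / 3) ^ n with hy
  have e1 : ((2 ^ n : ℕ) : ℝ) * -(1 / 2 * (1 / 3) ^ n) = -y := by
    rw [hy, show (2 / 3 : ℝ) = 2 * (1 / 3) by norm_num, mul_pow]; push_cast; ring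
  have y0 : 0 < y := by positivity
  have y1 : y ≤ 1 / 2 := by
    have : (2 / 3 : ℝ) ^ n ≤ 1 := pow_le_one₀ (by norm_num) (by norm_num)
    linarith
  have h0 := Real.exp_pos (-y)
  have h1 : Real.exp (-y) ≤ 1 - y / 2 := by
    rw [Real.exp_neg, inv_le_iff_one_le_mul₀ (Real.exp_pos _)]
    nlinarith [Real.add_one_le_exp y]
  rw [e1]
  refine ⟨by linarith, (pow_le_pow_left₀ (by linarith) (show _ ≤ Real.exp (-(y / 4)) by
    linarith [Real.add_one_le_exp (-(y / 4))]) _).trans ?_⟩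
  rw [← Real.exp_nat_mul, mul_neg, Real.exp_neg, inv_le_iff_one_le_mul₀ (Real.exp_pos _)]
  have e2 : 1 / 8 * (3 / 4 : ℝ) ^ n * (((64 * 2 ^ n : ℕ) : ℝ) * (y / 4)) = 1 := by
    have : (3 / 4 : ℝ) ^ n * 2 ^ n * (2 / 3) ^ n = 1 := by rw [← mul_pow, ← mul_pow]; norm_num
    rw [hy]; push_cast; linarith
  refine e2.symm.le.trans (mul_le_mul_of_nonneg_left ?_ (by positivity))
  linarith [Real.add_one_le_exp (((64 * 2 ^ n : ℕ) : ℝ) * (y / 4))]

lemma step [Infinite Γ] (n : ℕ) (s : Finset Γ × (Γ → ℝ)) (h : Inv n s) (hw : ∀ g, 0 ≤ s.2 g) :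
    ∃ (B P : Finset Γ), P.card = 64 * 2 ^ n ∧
      Inv (n + 1) (B, fun g => s.2 g + if g ∈ P then 1 / 2 * (1 / 3) ^ n else 0) := by
  obtain ⟨B, w⟩ := s
  obtain ⟨P, p1, p2, p3⟩ := exP B (64 * 2 ^ n)
  refine ⟨B ∪ P.biUnion (Q B), P, p1, Finset.mem_union_left _ h.1, fun ν _ hν x => ?_⟩
  have h1 := h.2 ν fun g g' => (hν g g').trans (Real.exp_le_exp.2 (by
    simp only [neg_add_rev]; split_ifs <;> simp))
  have h2 := double ν (D := B.image (x * ·)) (D' := (B ∪ P.biUnion (Q B)).image (x * ·)) (x := x) (P := P)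
    (Q := fun p => (Q B p).image (x * ·)) (t := fun p c => c * p) (L := fun p c => B.image (c * p * ·))
    (m := 2 ^ n) (θ := 1 / 2) (r := Real.exp (-(1 / 2 * (1 / 3) ^ n))) (by norm_num)
    (Real.exp_le_one_iff.2 (by simp)) (Finset.image_subset_image Finset.subset_union_left)
    (fun p hp => Finset.image_subset_image ((Finset.subset_biUnion_of_mem _ hp).trans
      Finset.subset_union_right))
    (fun p hp => (Finset.disjoint_image (mul_right_injective x)).2 (p2 p hp))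
    (fun p hp p' hp' hne => (Finset.disjoint_image (mul_right_injective x)).2 (p3 p hp p' hp' hne))
    (fun p hp c hc => ⟨Finset.mem_image.2 ⟨1, h.1, mul_one _⟩, fun z hz => ?_, (hν _ _).trans ?_,
      le_trans (le_add_of_nonneg_right (by positivity)) (h1 _)⟩) (num n).1
  · have h3 := h1 x
    have h4 := (num n).2
    rw [p1] at h2
    rw [pow_succ' 2 n, pow_succ]
    linarith
  · obtain ⟨a, ha, rfl⟩ := Finset.mem_image.1 hc
    obtain ⟨b, hb, rfl⟩ := Finset.mem_image.1 hz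
    exact Finset.mem_image.2 ⟨_, Finset.mem_image₂.2 ⟨a, ha, b, hb, rfl⟩, by group⟩
  · simpa [hp] using hw p

lemma weights [Infinite Γ] : ∃ T : Γ → ℝ≥0∞, ∑' g, T g ≠ ∞ ∧
    ∀ n, ∃ s : Finset Γ × (Γ → ℝ), Inv n s ∧ ∀ g, ENNReal.ofReal (s.2 g) ≤ T g := by
  choose! B P h1 h2 using step (Γ := Γ)
  let seq : ℕ → Finset Γ × (Γ → ℝ) := fun n => Nat.rec ({1}, 0)
    (fun n s => (B n s, fun g => s.2 g + if g ∈ P n s then 1 / 2 * (1 / 3) ^ n else 0)) n
  set U : ℕ → Γ → ℝ≥0∞ := fun n g =>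
    ENNReal.ofReal (if g ∈ P n (seq n) then 1 / 2 * (1 / 3) ^ n else 0) with hU
  have key : ∀ n, Inv n (seq n) ∧ (∀ g, 0 ≤ (seq n).2 g) ∧
      ∀ g, ENNReal.ofReal ((seq n).2 g) ≤ ∑ j ∈ Finset.range n, U j g := by
    intro n
    induction n with
    | zero =>
      refine ⟨⟨by simp [seq], fun ν _ _ x => ?_⟩, by simp [seq], by simp [seq]⟩
      have : Ev (({1} : Finset Γ).image (x * ·)) x (2 ^ 0) = Set.univ :=
        Set.eq_univ_of_forall fun ω => Finset.card_pos.2 ⟨x, by simp [K, Relation.ReflTransGen.refl]⟩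
      show _ ≤ (Measure.infinitePi ν).real (Ev (({1} : Finset Γ).image (x * ·)) x (2 ^ 0))
      rw [this]; norm_num
    | succ n ih =>
      refine ⟨h2 n _ ih.1 ih.2.1, fun g => add_nonneg (ih.2.1 g) (by split_ifs <;> positivity), fun g => ?_⟩
      rw [Finset.sum_range_succ]
      exact ENNReal.ofReal_add_le.trans (add_le_add_left (ih.2.2 g) _)
  refine ⟨fun g => ∑' n, U n g, ?_, fun n => ⟨seq n, (key n).1, fun g =>
    ((key n).2.2 g).trans (ENNReal.sum_le_tsum _)⟩⟩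
  have e : ∀ n, ∑' g, U n g = ENNReal.ofReal (32 * (2 / 3) ^ n) := by
    intro n
    rw [tsum_eq_sum (s := P n (seq n)) fun g hg => by simp [hU, hg],
      Finset.sum_congr rfl fun g hg => show U n g = ENNReal.ofReal (1 / 2 * (1 / 3) ^ n) by simp [hU, hg],
      Finset.sum_const, h1 n _ (key n).1 (key n).2.1, ← ENNReal.ofReal_nsmul,
      show (2 / 3 : ℝ) = 2 * (1 / 3) by norm_num, mul_pow]
    congr 1
    simp only [nsmul_eq_mul]; push_cast; ring
  rw [ENNReal.tsum_comm]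
  simp only [e]
  rw [← ENNReal.ofReal_tsum_of_nonneg (fun n => by positivity)
    ((summable_geometric_of_lt_one (by norm_num) (by norm_num)).mul_left _)]
  exact ENNReal.ofReal_ne_top

omit [Group Γ] in
lemma perc (ν : Measure (Sym2 Γ → ℕ)) [IsProbabilityMeasure ν] {D : ℕ → Finset Γ} {x : Γ}
    (h : ∀ n, 1 / 2 ≤ ν.real (Ev (D n) x (2 ^ n))) : ν (Perc Γ) ≠ 0 := by
  intro h0
  have m1 : ∀ n, MeasurableSet (⋃ j, ⋃ (_ : n ≤ j), Ev (D j) x (2 ^ j)) := fun n =>
    MeasurableSet.iUnion fun j => MeasurableSet.iUnion fun _ => (K_dep _ _ fun Z => 2 ^ j ≤ Z.card).meas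
  have h1 := tendsto_measure_iInter_atTop (μ := ν) (fun n => (m1 n).nullMeasurableSet)
    (fun a b hab => Set.iUnion_mono fun j => Set.iUnion_subset fun hj =>
      Set.subset_iUnion (fun _ : a ≤ j => Ev (D j) x (2 ^ j)) (hab.trans hj)) ⟨0, measure_ne_top _ _⟩
  rw [measure_mono_null (fun ω hω => ?_) h0] at h1
  · obtain ⟨n, hn⟩ := (h1.eventually (gt_mem_nhds (show (0 : ℝ≥0∞) < ENNReal.ofReal (1 / 2) by simp))).exists
    refine hn.not_ge (le_trans ?_ (measure_mono (Set.subset_iUnion₂ n le_rfl)))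
    exact (ENNReal.ofReal_le_iff_le_toReal (measure_ne_top _ _)).2 (h n)
  · refine ⟨x, fun hf => ?_⟩
    obtain ⟨j, hj, h2⟩ := Set.mem_iUnion₂.1 (Set.mem_iInter.1 hω hf.toFinset.card)
    have h3 : K (D j) x ω ⊆ hf.toFinset := by
      intro y hy
      rw [Set.Finite.mem_toFinset]
      have := (mem_K.1 hy).2
      clear hy
      induction this with
      | refl => exact SimpleGraph.Reachable.refl _
      | @tail u v _ h4 ih =>
        by_cases e : u = v
        · exact e ▸ ih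
        · exact ih.trans (SimpleGraph.Adj.reachable ((SimpleGraph.fromRel_adj _ _ _).2 ⟨e, Or.inl h4.2.2⟩))
    have := (Nat.lt_two_pow_self (n := j)).trans_le (h2.trans (Finset.card_le_card h3))
    omega

/-- Every countably infinite group has a generating measure with finite critical parameter. -/
theorem result (Γ : Type) [Group Γ] [Countable Γ] [Infinite Γ] :
    ∃ (μ : PMF Γ) (hμ : ∀ g, μ g⁻¹ = μ g), Subgroup.closure μ.support = ⊤ ∧ lambdaC μ hμ < ∞ := by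
  classical
  obtain ⟨T, hT, h⟩ := weights (Γ := Γ)
  obtain ⟨f, hf⟩ := exists_injective_nat Γ
  set V : Γ → ℝ≥0∞ := fun g => T g + 2⁻¹ ^ f g with hV
  have v1 : ∑' g, V g ≠ ∞ := by
    rw [ENNReal.tsum_add]
    refine ENNReal.add_ne_top.2 ⟨hT, ne_top_of_le_ne_top ?_
      (ENNReal.tsum_comp_le_tsum_of_injective hf fun n => 2⁻¹ ^ n)⟩
    simp
  set S : Γ → ℝ≥0∞ := fun g => V g + V g⁻¹ with hS
  have s0 : ∀ g, S g ≠ 0 := fun g => by simp [hS, hV]
  have s1 : ∑' g, S g ≠ ∞ := by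
    rw [ENNReal.tsum_add, show ∑' a, V a⁻¹ = ∑' a, V a from (Equiv.inv Γ).tsum_eq V]
    exact ENNReal.add_ne_top.2 ⟨v1, v1⟩
  have s2 : ∑' g, S g ≠ 0 := fun h => s0 1 (ENNReal.tsum_eq_zero.1 h 1)
  have hμ : ∀ g, PMF.normalize S s2 s1 g⁻¹ = PMF.normalize S s2 s1 g := fun g => by
    simp only [PMF.normalize_apply, hS, inv_inv, add_comm]
  refine ⟨PMF.normalize S s2 s1, hμ, ?_, lt_of_le_of_lt (iSup_le fun l => iSup₂_le fun _ hl => ?_) s1.lt_top⟩
  · rw [PMF.support_normalize, Set.eq_univ_of_forall (s := Function.support S) s0, Subgroup.closure_univ]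
  by_contra hc
  choose s h1 h2 using h
  have : IsProbabilityMeasure (law _ hμ l) := by unfold law; infer_instance
  refine perc (law _ hμ l) (D := fun n => (s n).1.image (1 * ·)) (x := 1)
    (fun n => le_trans (le_add_of_nonneg_right (by positivity)) ((h1 n).2 _ (fun g g' => ?_) 1)) hl
  rw [poissonMeasure_real_singleton]
  simp only [pow_zero, mul_one, Nat.factorial_zero, Nat.cast_one, div_one, Sym2.lift_mk,
    Real.exp_le_exp, neg_le_neg_iff]
  rw [← ENNReal.ofReal_le_ofReal_iff (NNReal.coe_nonneg _), ENNReal.ofReal_coe_nnreal, ENNReal.coe_mul,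
    ENNReal.coe_toNNReal (PMF.apply_ne_top _ _), PMF.normalize_apply, mul_left_comm]
  refine (h2 n _).trans ((le_self_add.trans le_self_add : T _ ≤ S _).trans (le_mul_of_one_le_right' ?_))
  rw [← ENNReal.mul_inv_cancel s2 s1]
  exact mul_le_mul_left (not_le.1 hc).le _

end Pool.Agent.Results.MP_9aa340_pr.Percolates
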